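import Mathlib
import Pool.Agent.H14.RcgDefs

set_option autoImplicit false

namespace Pool.Agent.Results.MP_0a00ee_co.Cycle8

open Pool.Agent.H14.RcgDefs SimpleGraph

def cl (c : Fin 8) : List (Fin 12) :=
  [[0, 8], [0, 1, 4], [1, 9], [1, 2, 5], [2, 10], [2, 3, 6], [3, 11], [3, 0, 7]].getD c []
def mem (c : Fin 8) (v : Fin 12) : Bool := (cl c).contains v
def adj (u v : Fin 12) : Bool :=
  u != v && ((u.val < 4 && v.val < 4) || (List.finRange 8).any fun c => mem c u && mem c v)

def G : SimpleGraph (Fin 12) where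
  Adj u v := adj u v = true
  symm := ⟨by decide +kernel⟩
  loopless := ⟨by decide +kernel⟩

theorem simp4 : ∀ v a b : Fin 12, adj v a = true → adj v b = true → a ≠ b → adj a b = false →
    v.val < 4 := by decide +kernel

theorem core4 : ∀ a b : Fin 12, a.val < 4 → b.val < 4 → a ≠ b → adj a b = true := by decide +kernel

open Fin.CommRing in
theorem chordal : Chordal G := by
  intro k hk
  obtain ⟨n, rfl⟩ : ∃ n, k = n + 4 := ⟨k - 4, by omega⟩
  refine ⟨fun f => ?_⟩
  have hne : ∀ i : Fin (n + 4), i - 1 ≠ i + 1 := by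
    intro i h
    have h2 : (1 + 1 : Fin (n + 4)) = 0 := by linear_combination -h
    have := congrArg Fin.val h2
    simp [Fin.val_add] at this
    rw [Nat.mod_eq_of_lt (by omega)] at this
    omega
  have hna : ∀ i : Fin (n + 4), ¬ (cycleGraph (n + 4)).Adj (i - 1) (i + 1) := by
    intro i h
    rcases (cycleGraph_adj (n := n + 2)).1 h with h | h
    · have h2 : (1 + 1 + 1 : Fin (n + 4)) = 0 := by linear_combination -h
      have := congrArg Fin.val h2
      simp [Fin.val_add] at this
      rw [Nat.mod_eq_of_lt (by omega)] at this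
      omega
    · have h2 : (1 : Fin (n + 4)) = 0 := by linear_combination h
      have := congrArg Fin.val h2
      simp at this
  have hf : ∀ i : Fin (n + 4), adj (f (i - 1)) (f (i + 1)) = false := fun i => by
    by_contra h
    exact hna i (f.map_rel_iff.1 (show G.Adj _ _ by simpa [G] using h))
  have h4 : ∀ i : Fin (n + 4), (f i).val < 4 := fun i =>
    simp4 (f i) (f (i - 1)) (f (i + 1))
      (f.map_rel_iff.2 ((cycleGraph_adj (n := n + 2)).2 (Or.inl (by ring))))
      (f.map_rel_iff.2 ((cycleGraph_adj (n := n + 2)).2 (Or.inr (by ring))))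
      (fun h => hne i (f.injective h)) (hf i)
  have := core4 _ _ (h4 (0 - 1)) (h4 (0 + 1)) (fun h => hne 0 (f.injective h))
  rw [hf 0] at this
  exact absurd this (by simp)

def K (c : Fin 8) : Set (Fin 12) := {v | mem c v = true}

theorem K_cl : ∀ (c : Fin 8) (u v : Fin 12), mem c u = true → mem c v = true → u ≠ v →
    adj u v = true := by decide +kernel

theorem K_mx : ∀ (c : Fin 8) (w : Fin 12), mem c w = false →
    ∃ z, mem c z = true ∧ z ≠ w ∧ adj z w = false := by decide +kernel

theorem K_max (c : Fin 8) : Maximal G.IsClique (K c) := by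
  refine ⟨fun u hu v hv h => K_cl c u v hu hv h, fun T hT hKT w hw => ?_⟩
  by_contra h
  obtain ⟨z, h1, h2, h3⟩ := K_mx c w (by simpa [K] using h)
  have : adj z w = true := hT (hKT h1) hw h2
  simp [h3] at this

theorem K_inj : ∀ c d : Fin 8, (∀ v, mem c v = mem d v) → c = d := by decide +kernel

theorem hit {V : Type} {H : SimpleGraph V} (R S : V → Prop)
    (h : ∀ a b, R a → H.Adj a b → R b ∨ S b) :
    ∀ {u v : V} (p : H.Walk u v), R u → ¬ R v → ∃ w ∈ p.support, S w := by
  intro u v p
  induction p with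
  | nil => intro h1 h2; exact absurd h1 h2
  | cons e p ih =>
    intro h1 h2
    rcases h _ _ h1 e with h3 | h3
    · obtain ⟨w, hw, hs⟩ := ih h3 h2
      exact ⟨w, by simp [hw], hs⟩
    · exact ⟨_, by simp, h3⟩

def R (c d : Fin 8) (u v w : Fin 12) : Bool :=
  if 8 ≤ u.val then w == u else w != v && !(mem c w && mem d w)

theorem edge : ∀ c d : Fin 8, (cycleGraph 8).Adj c d → (∃ w, mem c w = true ∧ mem d w = true) ∧
    ∀ u, mem c u = true → mem d u = false → ∀ v, mem d v = true → mem c v = false →
      R c d u v u = true ∧ R c d u v v = false ∧ ∀ a b, R c d u v a = true → adj a b = true →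
        R c d u v b = true ∨ (mem c b = true ∧ mem d b = true) := by decide +kernel

theorem nonedge : ∀ c d : Fin 8, c ≠ d → ¬ (cycleGraph 8).Adj c d →
    (∀ w, ¬ (mem c w = true ∧ mem d w = true)) ∨
      ∃ u v, mem c u = true ∧ mem d u = false ∧ mem d v = true ∧ mem c v = false ∧ adj u v = true := by
  decide +kernel

theorem result : ∃ G : SimpleGraph (Fin 12), Chordal G ∧
    Nonempty (cycleGraph 8 ↪g reducedCliqueGraph G) := by
  have inj : Function.Injective
      (fun c => (⟨K c, K_max c⟩ : {K : Set (Fin 12) // Maximal G.IsClique K})) := by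
    intro c d h
    refine K_inj c d fun v => ?_
    have := Set.ext_iff.1 (congrArg Subtype.val h) v
    simpa [K] using this
  refine ⟨G, chordal, ⟨⟨⟨_, inj⟩, ?_⟩⟩⟩
  intro c d
  constructor
  · rintro ⟨h1, ⟨w, hw⟩, h3⟩
    by_contra h
    rcases nonedge c d (fun e => h1 (by rw [e])) h with h' | ⟨u, v, a1, a2, a3, a4, a5⟩
    · exact h' w hw
    · have e : G.Adj u v := a5
      obtain ⟨w, hw1, hw2⟩ := h3 u ⟨a1, by simp [K, a2]⟩ v ⟨a3, by simp [K, a4]⟩
        (Walk.cons e Walk.nil) (by simp [e.ne])
      have hc : mem c w = true := hw2.1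
      have hd : mem d w = true := hw2.2
      simp only [Walk.support_cons, Walk.support_nil, List.mem_cons, List.not_mem_nil, or_false] at hw1
      rcases hw1 with rfl | rfl
      · simp [a2] at hd
      · simp [a4] at hc
  · intro h
    obtain ⟨h1, h2⟩ := edge c d h
    refine ⟨fun e => h.ne (inj e), h1, fun u hu v hv p _ => ?_⟩
    obtain ⟨b1, b2, b3⟩ := h2 u hu.1 (by simpa [K] using hu.2) v hv.1 (by simpa [K] using hv.2)
    exact hit (fun w => R c d u v w = true) (fun w => w ∈ K c ∩ K d) b3 p b1 (by simp [b2])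

end Pool.Agent.Results.MP_0a00ee_co.Cycle8
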